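import Mathlib
import Pool.Agent.W926.PS.Base

/-! Project PS, part IB. -/

namespace Pool.Agent.W392.PS

open Finset W926.PS

variable {r a : ℕ}

theorem six_inj {β : Type} (X Z : Fin 3 → β) (h01 : X 0 ≠ X 1) (h02 : X 0 ≠ X 2) (h12 : X 1 ≠ X 2)
    (k01 : Z 0 ≠ Z 1) (k02 : Z 0 ≠ Z 2) (k12 : Z 1 ≠ Z 2) (hk : ∀ g h, X g ≠ Z h) :
    Function.Injective (six X Z) := by
  have e : ∀ u v : Fin 6, u < v → six X Z u ≠ six X Z v := by
    intro u v huv
    fin_cases u <;> fin_cases v <;> first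
      | exact absurd huv (by decide)
      | exact h01
      | exact h02
      | exact h12
      | exact k01
      | exact k02
      | exact k12
      | exact hk _ _
  intro u v huv
  rcases lt_trichotomy u v with h | h | h
  · exact absurd huv (e u v h)
  · exact h
  · exact absurd huv.symm (e v u h)

theorem CaseI_inj {X Z : Fin 3 → Om r a} {i j : Fin r} {d e : Fin a} (h : CaseI X Z i j d e) :
    Function.Injective (six X Z) := by
  obtain ⟨a1, a2, a3, a4, a5⟩ := h.atd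
  obtain ⟨b1, b2, b3, b4⟩ := h.ate
  refine six_inj X Z ?_ ?_ ?_ ?_ ?_ ?_ ?_
  · intro hh
    rw [hh, b3] at b1
    exact absurd b1 (by decide)
  · intro hh
    exact a4 (by rw [← hh])
  · intro hh
    exact a4 (by rw [← hh, a1])
  · intro hh
    rw [hh, b4] at b2
    exact absurd b2 (by decide)
  · intro hh
    exact a5 (by rw [← hh, a2])
  · intro hh
    exact a5 (by rw [← hh, a3])
  · intro g k hh
    apply h.differ
    rw [← h.xx i h.ij g, ← h.zz i h.ij k, hh]

theorem CaseI_coll {X Z : Fin 3 → Om r a} {i j : Fin r} {d e : Fin a} (h : CaseI X Z i j d e) :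
    Coll (X 0) (X 1) (Z 0) (Z 1) j e := by
  obtain ⟨a1, a2, a3, a4, a5⟩ := h.atd
  obtain ⟨b1, b2, b3, b4⟩ := h.ate
  refine ⟨fun b hb => (h.xx b hb 1).symm, fun b hb => (h.zz b hb 1).symm, ⟨i, h.ij, h.differ⟩,
    fun c hc => ?_, b1, b2, b3, b4⟩
  rcases lt_trichotomy c d with hcd | hcd | hcd
  · have h0 := h.pre c hcd 0
    have h1 := h.pre c hcd 1
    exact ⟨h1.1.symm, h0.2.symm, h1.2.symm⟩
  · subst hcd
    exact ⟨a1.symm, a2.symm, a3.symm⟩
  · obtain ⟨m1, m2, m3⟩ := h.mid c hcd hc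
    exact ⟨m1.symm, m2.symm, m3.symm⟩

theorem st1_before {j : Fin r} {d : Fin a} {p' : Pos r a} (h : Before (st1 j) p' (j, d)) :
    p'.1 = j ∧ p'.2 < d := by
  unfold Before st1 at h
  simp only [if_true] at h
  rcases h with h | ⟨h, h'⟩
  · exact absurd h (Nat.not_lt_zero _)
  · have h1 : p'.1 = j := by
      by_contra hne
      rw [if_neg hne] at h
      exact absurd h one_ne_zero
    refine ⟨h1, ?_⟩
    rw [nrk_lt_iff] at h'
    rcases h' with h2 | h2
    · rw [h1] at h2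
      exact absurd h2 (lt_irrefl _)
    · exact h2.2

theorem ib : S_EIGHT → S_TYP → S_IB := by
  intro h8 hT r a κ F hF X Z i j d e h
  refine (h8 r a F (st1 j) (hF.first1 j) (six X Z) (CaseI_inj h)).trans
    (nq_mono F _ _ _ fun key hk hkey => ?_)
  obtain ⟨φ, hφ⟩ := hkey
  obtain ⟨a1, a2, a3, a4, a5⟩ := h.atd
  refine ⟨(hT r a _ _ _ _ j e (CaseI_coll h) key).2.1 φ hφ, ?_⟩
  have f02 : FD (st1 j) (X 0) (X 2) (j, d) := by
    refine ⟨fun p' hp => ?_, fun hh => a4 hh.symm⟩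
    obtain ⟨h1, h2⟩ := st1_before hp
    rw [h1]
    exact ((h.pre _ h2 2).1).symm
  have f12 : FD (st1 j) (X 1) (X 2) (j, d) := by
    refine ⟨fun p' hp => ?_, fun hh => a4 (hh.symm.trans a1)⟩
    obtain ⟨h1, h2⟩ := st1_before hp
    rw [h1]
    exact ((h.pre _ h2 1).1).trans ((h.pre _ h2 2).1).symm
  rw [hφ _ _ _ f02, hφ _ _ _ f12]
  show X 0 j d = φ (j, d) ↔ X 1 j d = φ (j, d)
  rw [a1]

end Pool.Agent.W392.PS
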