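import Pool.Agent.W787.PS.StmA

/-!
# Project PS: comparison of averages of the logarithm of the density
-/

open MeasureTheory Set Metric Filter Topology

noncomputable section

namespace Pool.Agent.W392.PS.MC

open Pool.Agent.W787.PS

theorem vol (a : ℂ) (r : ℝ) (hr : 0 < r) : (volume (ball a r)).toReal = Real.pi * r ^ 2 := by
  rw [Complex.volume_ball, ENNReal.toReal_mul, ENNReal.toReal_pow, ENNReal.toReal_ofReal hr.le]
  rw [mul_comm]
  rfl

theorem avg_add {f g : ℂ → ℝ} {a : ℂ} {r : ℝ} (hf : IntegrableOn f (ball a r))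
    (hg : IntegrableOn g (ball a r)) : avg (fun x => f x + g x) a r = avg f a r + avg g a r := by
  unfold avg
  rw [integral_add hf hg, mul_add]

theorem avg_add3 {f g h : ℂ → ℝ} {a : ℂ} {r : ℝ} (hf : IntegrableOn f (ball a r))
    (hg : IntegrableOn g (ball a r)) (hh : IntegrableOn h (ball a r)) :
    avg (fun x => f x + g x + h x) a r = avg f a r + avg g a r + avg h a r := by
  have e := avg_add (f := fun x => f x + g x) (hf.add hg) hh
  rw [e, avg_add hf hg]

theorem avg_sub {f g : ℂ → ℝ} {a : ℂ} {r : ℝ} (hf : IntegrableOn f (ball a r))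
    (hg : IntegrableOn g (ball a r)) : avg (fun x => f x - g x) a r = avg f a r - avg g a r := by
  unfold avg
  rw [integral_sub hf hg, mul_sub]

theorem avg_congr {f g : ℂ → ℝ} {a : ℂ} {r : ℝ} (h : ∀ x ∈ ball a r, f x = g x) :
    avg f a r = avg g a r := by
  unfold avg
  rw [setIntegral_congr_fun measurableSet_ball h]

theorem int_const (c : ℝ) (a : ℂ) (r : ℝ) : IntegrableOn (fun _ : ℂ => c) (ball a r) :=
  integrableOn_const measure_ball_lt_top.ne

theorem avg_const (c : ℝ) (a : ℂ) (r : ℝ) (hr : 0 < r) : avg (fun _ => c) a r = c := by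
  unfold avg
  rw [setIntegral_const, smul_eq_mul, Measure.real, vol a r hr]
  have : Real.pi * r ^ 2 ≠ 0 := by positivity
  field_simp

theorem avg_le {f : ℂ → ℝ} {a : ℂ} {r c : ℝ} (hr : 0 < r) (hf : IntegrableOn f (ball a r))
    (h : ∀ x ∈ ball a r, f x ≤ c) : avg f a r ≤ c := by
  conv_rhs => rw [← avg_const c a r hr]
  unfold avg
  refine mul_le_mul_of_nonneg_left ?_ (by positivity)
  exact setIntegral_mono_on hf (int_const c a r) measurableSet_ball h

theorem le_avg {f : ℂ → ℝ} {a : ℂ} {r c : ℝ} (hr : 0 < r) (hf : IntegrableOn f (ball a r))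
    (h : ∀ x ∈ ball a r, c ≤ f x) : c ≤ avg f a r := by
  conv_lhs => rw [← avg_const c a r hr]
  unfold avg
  refine mul_le_mul_of_nonneg_left ?_ (by positivity)
  exact setIntegral_mono_on (int_const c a r) hf measurableSet_ball h

theorem cont_int {f : ℂ → ℝ} {a : ℂ} {r : ℝ} (hf : ContinuousOn f (closedBall a r)) :
    IntegrableOn f (ball a r) :=
  (hf.integrableOn_compact (isCompact_closedBall a r)).mono_set ball_subset_closedBall

/-- local integrability of the logarithm -/
theorem log_int (y a : ℂ) (r t : ℝ) (ht : 0 < t) :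
    IntegrableOn (fun x => Real.log ‖(t : ℂ) * x - y‖) (ball a r) := by
  set M : ℝ := t * (‖a‖ + r) + ‖y‖ with hM
  set F : ℝ → ℝ := (Iio M).indicator Real.log with hF
  have h1 : Integrable (fun z : ℂ => F ‖z‖) := by
    rw [integrable_fun_norm_addHaar (volume : Measure ℂ) (f := F)]
    have h2 : (fun y : ℝ => y ^ (Module.finrank ℝ ℂ - 1) • F y) =
        (Iio M).indicator (fun y => y * Real.log y) := by
      funext y
      rw [Complex.finrank_real_complex, hF]
      by_cases hy : y ∈ Iio M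
      · rw [indicator_of_mem hy, indicator_of_mem hy]; simp
      · rw [indicator_of_notMem hy, indicator_of_notMem hy]; simp
    rw [h2, integrableOn_indicator_iff measurableSet_Iio, Iio_inter_Ioi]
    exact (Real.continuous_mul_log.integrableOn_Icc (a := 0) (b := M)).mono_set Ioo_subset_Icc_self
  have h3 : Integrable (fun z : ℂ => F ‖z - y‖) := h1.comp_sub_right y
  have h4 : Integrable (fun x : ℂ => F ‖t • x - y‖) := h3.comp_smul ht.ne'
  refine (h4.integrableOn (s := ball a r)).congr_fun (fun x hx => ?_) measurableSet_ball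
  have h5 : ‖t • x - y‖ ∈ Iio M := by
    rw [mem_Iio, hM]
    rw [mem_ball, dist_eq_norm] at hx
    have h6 : ‖x‖ < ‖a‖ + r := by
      have := norm_sub_norm_le x a
      linarith
    have h7 : ‖t • x‖ = t * ‖x‖ := by rw [norm_smul, Real.norm_of_nonneg ht.le]
    have h8 := norm_sub_le (t • x) y
    have h9 := mul_lt_mul_of_pos_left h6 ht
    linarith
  show F ‖t • x - y‖ = _
  rw [hF, indicator_of_mem h5, Complex.real_smul]

section datum
variable {Λ R L ε : ℝ} {ρ g w : ℂ → ℝ}

theorem pos (hD : IsDatum Λ R L ε ρ g w) {x : ℂ} (hx : x ∈ ball (0 : ℂ) R) : 0 < ρ x := by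
  rw [hD.eq x hx]
  exact Real.exp_pos _

theorem log_eq (hD : IsDatum Λ R L ε ρ g w) {x : ℂ} (hx : x ∈ ball (0 : ℂ) R) :
    Real.log (ρ x) = pot ρ x + g x + w x := by
  rw [hD.eq x hx, Real.log_exp]

theorem log_cont (hD : IsDatum Λ R L ε ρ g w) :
    ContinuousOn (fun x => Real.log (ρ x)) (ball 0 R) :=
  ContinuousOn.log hD.diff.continuous.continuousOn fun _ hx => (pos hD hx).ne'

theorem pot_cont (hD : IsDatum Λ R L ε ρ g w) : ContinuousOn (pot ρ) (ball 0 R) := by
  have h1 := ((log_cont hD).sub hD.g_diff.continuousOn).sub hD.w_diff.continuousOn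
  refine h1.congr fun x hx => ?_
  show pot ρ x = Real.log (ρ x) - g x - w x
  rw [log_eq hD hx]
  ring

theorem g_lip (hD : IsDatum Λ R L ε ρ g w) (hL : 0 ≤ L) {x y : ℂ} (hx : x ∈ ball (0 : ℂ) R)
    (hy : y ∈ ball (0 : ℂ) R) : |g y - g x| ≤ L * ‖y - x‖ := by
  have key := Convex.norm_image_sub_le_of_norm_fderiv_le (𝕜 := ℝ) (f := g) (C := L)
    (s := ball (0 : ℂ) R) (x := x) (y := y)
  refine key (fun z hz => ?_) (fun z hz => ?_) (convex_ball 0 R) hx hy
  · exact (hD.g_diff.differentiableOn (by norm_num)).differentiableAt (isOpen_ball.mem_nhds hz)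
  · refine ContinuousLinearMap.opNorm_le_bound _ hL fun v => ?_
    have h1 : fderiv ℝ g z v = v.re * fderiv ℝ g z 1 + v.im * fderiv ℝ g z Complex.I := by
      have h2 : v = v.re • (1 : ℂ) + v.im • Complex.I := by
        rw [Complex.real_smul, Complex.real_smul, mul_one]
        exact (Complex.re_add_im v).symm
      conv_lhs => rw [h2]
      rw [map_add, map_smul, map_smul, smul_eq_mul, smul_eq_mul]
    have h2 := hD.g_grad z hz
    unfold nsq at h2
    set A := fderiv ℝ g z 1
    set B := fderiv ℝ g z Complex.I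
    have h3 : ‖v‖ ^ 2 = v.re ^ 2 + v.im ^ 2 := by
      rw [← Complex.normSq_eq_norm_sq, Complex.normSq_apply]; ring
    rw [h1]
    refine abs_le_of_sq_le_sq ?_ (by positivity)
    rw [mul_pow, h3]
    have h4 : (v.re * A + v.im * B) ^ 2 ≤ (A ^ 2 + B ^ 2) * (v.re ^ 2 + v.im ^ 2) := by
      nlinarith [sq_nonneg (v.re * B - v.im * A)]
    exact h4.trans (mul_le_mul_of_nonneg_right h2 (by positivity))

end datum

theorem pot_avg (h3 : S_POTA) {ρ : ℂ → ℝ} (hc : Continuous ρ) (hs : HasCompactSupport ρ) (a : ℂ)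
    (r : ℝ) (hr : 0 < r) :
    Integrable (fun y => avg (fun x => Real.log ‖x - y‖) a r * ρ y) ∧
    avg (pot ρ) a r =
      -(1 / (2 * Real.pi)) * ∫ y, avg (fun x => Real.log ‖x - y‖) a r * ρ y := by
  have := h3 ρ hc hs a r 1 hr one_pos
  simpa using this

theorem mc (h1 : S_W2) (h2 : S_AVL) (h3 : S_POTA) : S_MC := by
  intro Λ R L a b r s hΛ hL hr hs ha hb
  obtain ⟨C1, hC1, hw⟩ := h1 a b r s R hr hs ha hb
  obtain ⟨C2, hC2⟩ := h2 a b r s hr hs
  have hR : 0 < R := by linarith [norm_nonneg a]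
  refine ⟨1 / (2 * Real.pi) * (C2 * Λ) + 2 * (L * R) + C1, fun ρ g w hD => ?_⟩
  have hsub : ∀ (c : ℂ) (q : ℝ), ‖c‖ + q < R → closedBall c q ⊆ ball (0 : ℂ) R := by
    intro c q h x hx
    rw [mem_closedBall, dist_eq_norm] at hx
    rw [mem_ball_zero_iff]
    have := norm_sub_norm_le x c
    linarith
  have hsplit : ∀ (c : ℂ) (q : ℝ), 0 < q → ‖c‖ + q < R →
      avg (fun x => Real.log (ρ x)) c q = avg (pot ρ) c q + avg g c q + avg w c q := by
    intro c q hq h
    have hi1 := cont_int ((pot_cont hD).mono (hsub c q h))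
    have hi2 := cont_int (hD.g_diff.continuousOn.mono (hsub c q h))
    have hi3 := cont_int (hD.w_diff.continuousOn.mono (hsub c q h))
    rw [avg_congr (g := fun x => (pot ρ x + g x) + w x)
      (fun x hx => log_eq hD (hsub c q h (ball_subset_closedBall hx))), avg_add3 hi1 hi2 hi3]
  have hg : ∀ (c : ℂ) (q : ℝ), 0 < q → ‖c‖ + q < R → |avg g c q - g 0| ≤ L * R := by
    intro c q hq h
    have hi2 := cont_int (hD.g_diff.continuousOn.mono (hsub c q h))
    have hb : ∀ x ∈ ball c q, |g x - g 0| ≤ L * R := by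
      intro x hx
      have hx' := hsub c q h (ball_subset_closedBall hx)
      refine (g_lip hD hL (mem_ball_self hR) hx').trans ?_
      refine mul_le_mul_of_nonneg_left ?_ hL
      rw [sub_zero]
      rw [mem_ball_zero_iff] at hx'
      exact hx'.le
    rw [abs_le]
    constructor
    · have := le_avg hq hi2 (c := g 0 - L * R) fun x hx => by
        have := (abs_le.1 (hb x hx)).1; linarith
      linarith
    · have := avg_le hq hi2 (c := g 0 + L * R) fun x hx => by
        have := (abs_le.1 (hb x hx)).2; linarith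
      linarith
  rw [hsplit a r hr ha, hsplit b s hs hb]
  have e1 : |avg (pot ρ) a r - avg (pot ρ) b s| ≤ 1 / (2 * Real.pi) * (C2 * Λ) := by
    obtain ⟨i1, p1⟩ := pot_avg h3 hD.diff.continuous hD.supp a r hr
    obtain ⟨i2, p2⟩ := pot_avg h3 hD.diff.continuous hD.supp b s hs
    rw [p1, p2, ← mul_sub, ← integral_sub i1 i2, abs_mul, abs_neg,
      abs_of_pos (by positivity : (0 : ℝ) < 1 / (2 * Real.pi))]
    refine mul_le_mul_of_nonneg_left ?_ (by positivity)
    have hρi : Integrable ρ := hD.diff.continuous.integrable_of_hasCompactSupport hD.supp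
    calc |∫ y, (avg (fun x => Real.log ‖x - y‖) a r * ρ y -
          avg (fun x => Real.log ‖x - y‖) b s * ρ y)|
        ≤ ∫ y, |avg (fun x => Real.log ‖x - y‖) a r * ρ y -
          avg (fun x => Real.log ‖x - y‖) b s * ρ y| := abs_integral_le_integral_abs
      _ ≤ ∫ y, C2 * ρ y := by
        refine integral_mono (i1.sub i2).abs (hρi.const_mul C2) fun y => ?_
        show |avg (fun x => Real.log ‖x - y‖) a r * ρ y -
          avg (fun x => Real.log ‖x - y‖) b s * ρ y| ≤ C2 * ρ y
        rw [← sub_mul, abs_mul, abs_of_nonneg (hD.nonneg y)]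
        exact mul_le_mul_of_nonneg_right (hC2 y) (hD.nonneg y)
      _ = C2 * ∫ y, ρ y := integral_const_mul _ _
      _ ≤ C2 * Λ := mul_le_mul_of_nonneg_left hD.mass ((abs_nonneg _).trans (hC2 0))
  have e2 : |avg g a r - avg g b s| ≤ 2 * (L * R) := by
    have k1 := abs_le.1 (hg a r hr ha)
    have k2 := abs_le.1 (hg b s hs hb)
    rw [abs_le]
    constructor <;> linarith [k1.1, k1.2, k2.1, k2.2]
  have e3 : |avg w a r - avg w b s| ≤ C1 := by
    refine (hw w hD.w_diff hD.w_int).trans ?_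
    have : Real.sqrt (∫ x in ball (0 : ℂ) R, nsq w x) ≤ 1 := by
      rw [Real.sqrt_le_iff]
      exact ⟨by norm_num, hD.w_en⟩
    nlinarith
  have e4 : avg (pot ρ) a r + avg g a r + avg w a r - (avg (pot ρ) b s + avg g b s + avg w b s) =
      (avg (pot ρ) a r - avg (pot ρ) b s) + (avg g a r - avg g b s) +
        (avg w a r - avg w b s) := by ring
  rw [e4]
  exact (abs_add_three _ _ _).trans (add_le_add (add_le_add e1 e2) e3)

theorem cmp (h1 : S_W3) (h2 : S_K1) (h3 : S_POTA) : S_CMP := by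
  obtain ⟨C1, hC1, hW⟩ := h1
  obtain ⟨C2, hC2, hK⟩ := h2
  refine ⟨C1 + C2 + 3, by positivity, ?_⟩
  intro Λ R L ε ρ g w hΛ hL hε hD a t ha1 ha2 ht htR
  have ht0 : 0 < t := by linarith
  have h16 : (0 : ℝ) < 1 / 16 := by norm_num
  have hlt : 0 ≤ Real.log t := Real.log_nonneg ht
  have hx3 : ∀ x ∈ closedBall a (1 / 16), ‖x‖ < 3 := by
    intro x hx
    rw [mem_closedBall, dist_eq_norm] at hx
    have := norm_sub_norm_le x a
    linarith
  have hm1 : ∀ x ∈ closedBall a (1 / 16), x ∈ ball (0 : ℂ) R := by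
    intro x hx
    have := hx3 x hx
    rw [mem_ball_zero_iff]
    linarith
  have hmt : ∀ x ∈ closedBall a (1 / 16), (t : ℂ) * x ∈ ball (0 : ℂ) R := by
    intro x hx
    have := hx3 x hx
    rw [mem_ball_zero_iff, norm_mul, Complex.norm_real, Real.norm_of_nonneg ht0.le]
    nlinarith
  have hmul : ContinuousOn (fun x : ℂ => (t : ℂ) * x) (closedBall a (1 / 16)) :=
    (continuous_const.mul continuous_id).continuousOn
  -- integrability
  have ip := cont_int ((pot_cont hD).mono hm1)
  have ig := cont_int (hD.g_diff.continuousOn.mono hm1)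
  have iw := cont_int (hD.w_diff.continuousOn.mono hm1)
  have ipt : IntegrableOn (fun x => pot ρ ((t : ℂ) * x)) (ball a (1 / 16)) :=
    cont_int ((pot_cont hD).comp hmul hmt)
  have igt : IntegrableOn (fun x => g ((t : ℂ) * x)) (ball a (1 / 16)) :=
    cont_int (hD.g_diff.continuousOn.comp hmul hmt)
  have iwt : IntegrableOn (fun x => w ((t : ℂ) * x)) (ball a (1 / 16)) :=
    cont_int (hD.w_diff.continuousOn.comp hmul hmt)
  have s1 : avg (fun x => Real.log (ρ x)) a (1 / 16) =
      avg (pot ρ) a (1 / 16) + avg g a (1 / 16) + avg w a (1 / 16) := by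
    rw [avg_congr (g := fun x => (pot ρ x + g x) + w x)
      (fun x hx => log_eq hD (hm1 x (ball_subset_closedBall hx))), avg_add3 ip ig iw]
  have s2 : avg (fun x => Real.log (ρ ((t : ℂ) * x))) a (1 / 16) =
      avg (fun x => pot ρ ((t : ℂ) * x)) a (1 / 16) + avg (fun x => g ((t : ℂ) * x)) a (1 / 16) +
        avg (fun x => w ((t : ℂ) * x)) a (1 / 16) := by
    rw [avg_congr (g := fun x => (pot ρ ((t : ℂ) * x) + g ((t : ℂ) * x)) + w ((t : ℂ) * x))
      (fun x hx => log_eq hD (hmt x (ball_subset_closedBall hx))), avg_add3 ipt igt iwt]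
  -- the potential
  have e1 : avg (fun x => pot ρ ((t : ℂ) * x)) a (1 / 16) - avg (pot ρ) a (1 / 16) ≤
      -(Real.log t / (2 * Real.pi)) * ms ρ 0 (1 / 2) + C2 * Λ := by
    obtain ⟨i1, p1⟩ := pot_avg h3 hD.diff.continuous hD.supp a (1 / 16) h16
    obtain ⟨i2, p2⟩ := h3 ρ hD.diff.continuous hD.supp a (1 / 16) t h16 ht0
    have hρi : Integrable ρ := hD.diff.continuous.integrable_of_hasCompactSupport hD.supp
    have hmass : 0 ≤ ∫ x, ρ x := integral_nonneg hD.nonneg
    have q1 : avg (fun x => pot ρ ((t : ℂ) * x)) a (1 / 16) - avg (pot ρ) a (1 / 16) =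
        1 / (2 * Real.pi) * ∫ y, (avg (fun x => Real.log ‖x - y‖) a (1 / 16) * ρ y -
          avg (fun x => Real.log ‖(t : ℂ) * x - y‖) a (1 / 16) * ρ y) := by
      rw [p1, p2, integral_sub i1 i2]
      ring
    have q2 : ∫ y, (avg (fun x => Real.log ‖x - y‖) a (1 / 16) * ρ y -
          avg (fun x => Real.log ‖(t : ℂ) * x - y‖) a (1 / 16) * ρ y) ≤
        ∫ y, (C2 * ρ y - (ball (0 : ℂ) (1 / 2)).indicator (fun y => Real.log t * ρ y) y) := by
      refine integral_mono (i1.sub i2) ((hρi.const_mul C2).sub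
        ((hρi.const_mul (Real.log t)).indicator measurableSet_ball)) fun y => ?_
      show avg (fun x => Real.log ‖x - y‖) a (1 / 16) * ρ y -
          avg (fun x => Real.log ‖(t : ℂ) * x - y‖) a (1 / 16) * ρ y ≤
        C2 * ρ y - (ball (0 : ℂ) (1 / 2)).indicator (fun y => Real.log t * ρ y) y
      have hli : IntegrableOn (fun x => Real.log ‖x - y‖) (ball a (1 / 16)) := by
        have := log_int y a (1 / 16) 1 one_pos
        simpa using this
      rw [← sub_mul, ← avg_sub hli (log_int y a (1 / 16) t ht0)]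
      have hk := hK a t ha1 ha2 ht y
      by_cases hy : y ∈ ball (0 : ℂ) (1 / 2)
      · rw [indicator_of_mem hy, ← sub_mul]
        rw [mem_ball_zero_iff] at hy
        exact mul_le_mul_of_nonneg_right (hk.2 hy.le) (hD.nonneg y)
      · rw [indicator_of_notMem hy, sub_zero]
        exact mul_le_mul_of_nonneg_right hk.1 (hD.nonneg y)
    have q3 : ∫ y, (C2 * ρ y - (ball (0 : ℂ) (1 / 2)).indicator (fun y => Real.log t * ρ y) y) =
        C2 * (∫ y, ρ y) - Real.log t * ms ρ 0 (1 / 2) := by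
      rw [integral_sub (hρi.const_mul C2)
        ((hρi.const_mul (Real.log t)).indicator measurableSet_ball), integral_const_mul,
        integral_indicator measurableSet_ball, integral_const_mul]
      rfl
    rw [q1]
    rw [q3] at q2
    have hpi : 0 < 2 * Real.pi := by positivity
    have hpi1 : 1 / (2 * Real.pi) ≤ 1 := by
      rw [div_le_one hpi]
      linarith [Real.pi_gt_three]
    calc 1 / (2 * Real.pi) * ∫ y, (avg (fun x => Real.log ‖x - y‖) a (1 / 16) * ρ y -
          avg (fun x => Real.log ‖(t : ℂ) * x - y‖) a (1 / 16) * ρ y)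
        ≤ 1 / (2 * Real.pi) * (C2 * (∫ y, ρ y) - Real.log t * ms ρ 0 (1 / 2)) :=
          mul_le_mul_of_nonneg_left q2 (by positivity)
      _ = -(Real.log t / (2 * Real.pi)) * ms ρ 0 (1 / 2) +
          1 / (2 * Real.pi) * (C2 * (∫ y, ρ y)) := by ring
      _ ≤ -(Real.log t / (2 * Real.pi)) * ms ρ 0 (1 / 2) + C2 * Λ := by
        have q4 : 1 / (2 * Real.pi) * (C2 * (∫ y, ρ y)) ≤ 1 * (C2 * (∫ y, ρ y)) :=
          mul_le_mul_of_nonneg_right hpi1 (by positivity)
        have q5 : C2 * (∫ y, ρ y) ≤ C2 * Λ := mul_le_mul_of_nonneg_left hD.mass hC2.le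
        linarith
  have e2 : avg (fun x => g ((t : ℂ) * x)) a (1 / 16) - avg g a (1 / 16) ≤ 3 * (t * L) := by
    rw [← avg_sub igt ig]
    refine avg_le h16 (igt.sub ig) fun x hx => ?_
    have hx' := ball_subset_closedBall hx
    have k1 := g_lip hD hL (hm1 x hx') (hmt x hx')
    have k2 : ‖(t : ℂ) * x - x‖ ≤ 3 * t := by
      have : (t : ℂ) * x - x = ((t - 1 : ℝ) : ℂ) * x := by push_cast; ring
      rw [this, norm_mul, Complex.norm_real, Real.norm_of_nonneg (by linarith)]
      have := hx3 x hx'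
      nlinarith [norm_nonneg x]
    have k3 : L * ‖(t : ℂ) * x - x‖ ≤ L * (3 * t) := mul_le_mul_of_nonneg_left k2 hL
    have k4 := le_abs_self (g ((t : ℂ) * x) - g x)
    linarith
  have e3 : avg (fun x => w ((t : ℂ) * x)) a (1 / 16) - avg w a (1 / 16) ≤
      C1 * (ε * Real.sqrt (Real.log t)) := by
    refine (le_abs_self _).trans ((hW w R hD.w_diff hD.w_int a t ha1 ha2 ht htR).trans ?_)
    have : Real.sqrt (∫ x in ball (0 : ℂ) R, nsq w x) ≤ ε := by
      rw [Real.sqrt_le_iff]
      exact ⟨hε, hD.w_en⟩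
    calc C1 * Real.sqrt (Real.log t) * Real.sqrt (∫ x in ball (0 : ℂ) R, nsq w x)
        ≤ C1 * Real.sqrt (Real.log t) * ε := mul_le_mul_of_nonneg_left this (by positivity)
      _ = _ := by ring
  rw [s1, s2]
  have f1 : 0 ≤ C1 * Λ := by positivity
  have f2 : 0 ≤ C1 * (t * L) := by positivity
  have f3 : 0 ≤ C2 * (t * L) := by positivity
  have f4 : 0 ≤ C2 * (ε * Real.sqrt (Real.log t)) := by positivity
  have f5 : 0 ≤ ε * Real.sqrt (Real.log t) := by positivity
  linarith

theorem cmpl (h1 : S_CMP) (h2 : S_SCAL) (h3 : S_SCM) : S_CMPL := by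
  obtain ⟨C, hC, hcmp⟩ := h1
  refine ⟨C, hC, ?_⟩
  intro Λ R L ε ρ g w hΛ hL hε hD a t ha1 ha2 ht ht1 hR
  have h16 : (0 : ℝ) < 1 / 16 := by norm_num
  have hR0 : 0 < R := by linarith
  have hD' := h2 Λ R L ε ρ g w hD 0 t (R / t) ht (by positivity) (by
    rw [norm_zero, zero_add, mul_div_cancel₀ _ ht.ne'])
  have ht' : 1 ≤ t⁻¹ := (one_le_inv₀ ht).2 ht1
  have hkey := hcmp Λ (R / t) (t * L) ε _ _ _ hΛ (by positivity) hε hD' a t⁻¹ ha1 ha2 ht' (by
    rw [div_eq_mul_inv]
    exact mul_le_mul_of_nonneg_right hR (by positivity))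
  have hx3 : ∀ x ∈ closedBall a (1 / 16), ‖x‖ < 3 := by
    intro x hx
    rw [mem_closedBall, dist_eq_norm] at hx
    have := norm_sub_norm_le x a
    linarith
  have hm1 : ∀ x ∈ closedBall a (1 / 16), x ∈ ball (0 : ℂ) R := by
    intro x hx
    have := hx3 x hx
    rw [mem_ball_zero_iff]
    linarith
  have hmt : ∀ x ∈ closedBall a (1 / 16), (t : ℂ) * x ∈ ball (0 : ℂ) R := by
    intro x hx
    have := hx3 x hx
    rw [mem_ball_zero_iff, norm_mul, Complex.norm_real, Real.norm_of_nonneg ht.le]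
    nlinarith [norm_nonneg x]
  have i1 : IntegrableOn (fun x => Real.log (ρ x)) (ball a (1 / 16)) :=
    cont_int ((log_cont hD).mono hm1)
  have i2 : IntegrableOn (fun x => Real.log (ρ ((t : ℂ) * x))) (ball a (1 / 16)) :=
    cont_int ((log_cont hD).comp ((continuous_const.mul continuous_id).continuousOn) hmt)
  have a1 : avg (fun x => Real.log (scρ ρ 0 t (((t⁻¹ : ℝ) : ℂ) * x))) a (1 / 16) =
      2 * Real.log t + avg (fun x => Real.log (ρ x)) a (1 / 16) := by
    rw [avg_congr (g := fun x => 2 * Real.log t + Real.log (ρ x)) (fun x hx => ?_),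
      avg_add (int_const _ _ _) i1, avg_const _ _ _ h16]
    have hx' := pos hD (hm1 x (ball_subset_closedBall hx))
    have e : (0 : ℂ) + (t : ℂ) * (((t⁻¹ : ℝ) : ℂ) * x) = x := by
      have : (t : ℂ) ≠ 0 := by exact_mod_cast ht.ne'
      push_cast
      field_simp
      ring
    unfold scρ
    rw [e, Real.log_mul (by positivity) hx'.ne', Real.log_pow]
    push_cast
    ring
  have a2 : avg (fun x => Real.log (scρ ρ 0 t x)) a (1 / 16) =
      2 * Real.log t + avg (fun x => Real.log (ρ ((t : ℂ) * x))) a (1 / 16) := by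
    rw [avg_congr (g := fun x => 2 * Real.log t + Real.log (ρ ((t : ℂ) * x))) (fun x hx => ?_),
      avg_add (int_const _ _ _) i2, avg_const _ _ _ h16]
    have hx' := pos hD (hmt x (ball_subset_closedBall hx))
    unfold scρ
    rw [zero_add, Real.log_mul (by positivity) hx'.ne', Real.log_pow]
    push_cast
    ring
  have a3 : ms (scρ ρ 0 t) 0 (1 / 2) = ms ρ 0 (t / 2) := by
    rw [h3.2.1 ρ 0 0 t (1 / 2) ht, mul_zero, zero_add]
    congr 1
    ring
  have a4 : t⁻¹ * (t * L) = L := by field_simp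
  rw [a1, a2, a3, a4] at hkey
  linarith

end Pool.Agent.W392.PS.MC
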